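import Pool.Agent.Helper93.KS.St2

/-!
# Project KS, second part, module JCH: the primitive character of a discriminant
-/

set_option autoImplicit false

noncomputable section

namespace Pool.Agent.Helper43.KS

open Pool.Agent.Helper93.KS

private theorem odd_val {D : ℕ} {x : ZMod (4 * D)} [NeZero (4 * D)] (hx : IsUnit x) : Odd x.val := by
  have h1 : Nat.Coprime x.val (4 * D) := by
    have h := (ZMod.isUnit_iff_coprime x.val (4 * D)).1 (by rwa [ZMod.natCast_zmod_val])
    exact h
  have h2 : Nat.Coprime x.val 2 := Nat.Coprime.coprime_dvd_right ⟨2 * D, by ring⟩ h1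
  exact Nat.coprime_two_right.1 h2

private theorem jmod (D b : ℕ) (hb : Odd b) :
    jacobiSym (D : ℤ) (b % (4 * D)) = jacobiSym (D : ℤ) b := (jacobiSym.mod_right' D hb).symm

open Classical in
/-- The Jacobi symbol `J(D | b)` as a character modulo `4 D`. -/
private def chi (D : ℕ) (hD : 1 ≤ D) : DirichletCharacter ℂ (4 * D) where
  toFun x := if IsUnit x then ((jacobiSym (D : ℤ) x.val : ℤ) : ℂ) else 0
  map_one' := by
    have hne : NeZero (4 * D) := ⟨by omega⟩
    have h1 : Fact (1 < 4 * D) := ⟨by omega⟩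
    rw [if_pos isUnit_one, ZMod.val_one, jacobiSym.one_right, Int.cast_one]
  map_mul' x y := by
    have hne : NeZero (4 * D) := ⟨by omega⟩
    by_cases hx : IsUnit x
    · by_cases hy : IsUnit y
      · rw [if_pos (hx.mul hy), if_pos hx, if_pos hy, ZMod.val_mul]
        have ox := odd_val hx
        have oy := odd_val hy
        rw [jmod D _ (ox.mul oy), jacobiSym.mul_right' (D : ℤ) ox.pos.ne' oy.pos.ne', Int.cast_mul]
      · have hxy : ¬ IsUnit (x * y) := fun h => hy (isUnit_of_mul_isUnit_right h)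
        rw [if_neg hxy, if_neg hy, mul_zero]
    · have hxy : ¬ IsUnit (x * y) := fun h => hx (isUnit_of_mul_isUnit_left h)
      rw [if_neg hxy, if_neg hx, zero_mul]
  map_nonunit' x hx := if_neg hx

open Classical in
private theorem chi_apply (D : ℕ) (hD : 1 ≤ D) (x : ZMod (4 * D)) :
    chi D hD x = if IsUnit x then ((jacobiSym (D : ℤ) x.val : ℤ) : ℂ) else 0 := rfl

private theorem chi_nat (D : ℕ) (hD : 1 ≤ D) (b : ℕ) (hb : Nat.Coprime b (4 * D)) :
    chi D hD (b : ZMod (4 * D)) = ((jacobiSym (D : ℤ) b : ℤ) : ℂ) := by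
  have hne : NeZero (4 * D) := ⟨by omega⟩
  have hu : IsUnit (b : ZMod (4 * D)) := (ZMod.isUnit_iff_coprime b (4 * D)).2 hb
  have ho : Odd b := Nat.coprime_two_right.1 (Nat.Coprime.coprime_dvd_right ⟨2 * D, by ring⟩ hb)
  rw [chi_apply, if_pos hu, ZMod.val_natCast, jmod D b ho]

theorem hJCH : StJCH := by
  intro D hD
  have hne : NeZero (4 * D) := ⟨by omega⟩
  have hf : (chi D hD).conductor ≠ 0 := DirichletCharacter.conductor_ne_zero _
  refine ⟨(chi D hD).conductor, ⟨hf⟩, (chi D hD).primitiveCharacter,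
    DirichletCharacter.primitiveCharacter_isPrimitive _,
    Nat.le_of_dvd (by omega) (DirichletCharacter.conductor_dvd_level _), ?_⟩
  intro p hp hp2 hpD
  have hc : Nat.Coprime p (4 * D) := by
    refine (Nat.Prime.coprime_iff_not_dvd hp).2 fun h => ?_
    rcases (Nat.Prime.dvd_mul hp).1 h with h4 | hD'
    · have h2 : p ∣ 2 := by
        have e : (4 : ℕ) = 2 ^ 2 := by norm_num
        rw [e] at h4
        exact hp.dvd_of_dvd_pow h4
      exact hp2 ((Nat.prime_dvd_prime_iff_eq hp Nat.prime_two).1 h2)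
    · exact hpD hD'
  have h1 : IsCoprime (p : ℤ) ((4 * D : ℕ) : ℤ) := Nat.isCoprime_iff_coprime.2 hc
  have h2 := (chi D hD).primitiveCharacter_apply_of_isCoprime h1
  rw [← chi_nat D hD p hc]
  exact_mod_cast h2

end Pool.Agent.Helper43.KS
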